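import Pool.Agent.Y920.AD.Stm

/-!
# AD-GROW1: growth of the one-dimensional labels

Adaptation of `Pool/Agent/H983R3/Core4.lean` (starting library) to dimension one.
-/

set_option autoImplicit false

namespace Pool.Agent.Y151.AD

open Pool.Agent.H983R3 Pool.Agent.Y920.AD

variable (P : Par)

lemma L1_bdd (p : ℝ) : BddBelow {k : ℤ | P.L1 k p} := by
  obtain ⟨a, ha⟩ := P.Lat_bdd (p, p)
  refine ⟨a, fun k hk => ha ?_⟩
  exact ⟨hk, hk⟩

lemma kap1_mem {n : ℤ} {p : ℝ} (h : P.L1 n p) : P.L1 (kap1 P p) p :=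
  Int.csInf_mem ⟨n, h⟩ (L1_bdd P p)

lemma kap1_le {n : ℤ} {p : ℝ} (h : P.L1 n p) : kap1 P p ≤ n :=
  csInf_le (L1_bdd P p) h

/-- lattice points of level `k` around `c` -/
noncomputable def box1 (k : ℤ) (c : ℝ) (A : ℕ) : Finset ℝ :=
  (Finset.Icc (P.pix k c - A) (P.pix k c + A + 1)).image (fun i => P.pt k i)

lemma box1_card (k : ℤ) (c : ℝ) (A : ℕ) : (box1 P k c A).card ≤ 2 * A + 2 := by
  unfold box1
  refine Finset.card_image_le.trans ?_
  rw [Int.card_Icc]
  omega

lemma mem_box1 {k : ℤ} {q c : ℝ} {A : ℕ} (hq : P.L1 k q) (h : |q - c| ≤ A * P.u k) :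
    q ∈ box1 P k c A := by
  obtain ⟨i, hi, hi'⟩ := P.mem_Icc_of hq h
  unfold box1
  rw [Finset.mem_image]
  exact ⟨i, hi, hi'.symm⟩

lemma b1_cases (n : ℤ) (y : ℝ) : b1 P n y = (n, P.cell n y) ∨
    ∃ p, P.L1 (n - 1) p ∧ (p - P.u n / 3 ≤ y ∧ y < p + P.u n / 3) ∧
      b1 P n y = (kap1 P p, P.cell (kap1 P p) y) := by
  by_cases h : ∃ p, P.L1 (n - 1) p ∧ (p - P.u n / 3 ≤ y ∧ y < p + P.u n / 3)
  · refine Or.inr ⟨h.choose, h.choose_spec.1, h.choose_spec.2, ?_⟩
    unfold b1
    rw [dif_pos h]
  · refine Or.inl ?_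
    unfold b1
    rw [dif_neg h]

lemma ell1_cases (n : ℤ) (y : ℝ) : ell1 P n y = b1 P n y ∨
    ∃ q, P.L1 n q ∧ |y - q| < P.u (n + 1) / 9 ∧ ell1 P n y = b1 P (kap1 P q - 1) y := by
  by_cases h : ∃ q, P.L1 n q ∧ |y - q| < P.u (n + 1) / 9
  · refine Or.inr ⟨h.choose, h.choose_spec.1, h.choose_spec.2, ?_⟩
    unfold ell1
    rw [dif_pos h]
  · refine Or.inl ?_
    unfold ell1
    rw [dif_neg h]

lemma b1_snd (n : ℤ) (y : ℝ) : (b1 P n y).2 = P.cell (b1 P n y).1 y := by
  rcases b1_cases P n y with h | ⟨p, -, -, h⟩ <;> rw [h]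

lemma ell1_snd (n : ℤ) (y : ℝ) : (ell1 P n y).2 = P.cell (ell1 P n y).1 y := by
  rcases ell1_cases P n y with h | ⟨q, -, -, h⟩ <;> rw [h] <;> exact b1_snd P _ _

/-- the constant of the linear bound -/
def K1 : ℕ := (8 * P.lam.toNat + 2) + 10 * (2 * P.lam.toNat + 2) + 200

/-- the covering centers -/
noncomputable def centers1 (j m n : ℤ) (ys y0 : ℝ) : Finset ℝ :=
  {ys} ∪ box1 P j ys 4 ∪ box1 P m y0 2 ∪ box1 P (j + 1) ys (4 * P.lam.toNat) ∪
    (Finset.Icc (m + 1) n).biUnion (fun k => (box1 P j ys 4).biUnion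
      (fun p => box1 P k p P.lam.toNat))

lemma centers1_card (j m n : ℤ) (ys y0 : ℝ) :
    (centers1 P j m n ys y0).card ≤ K1 P * ((n - m).toNat + 1) := by
  unfold centers1
  have h1 := box1_card P j ys 4
  have h2 := box1_card P m y0 2
  have h3 := box1_card P (j + 1) ys (4 * P.lam.toNat)
  have h4 : ((Finset.Icc (m + 1) n).biUnion (fun k => (box1 P j ys 4).biUnion
      (fun p => box1 P k p P.lam.toNat))).card ≤
      (n - m).toNat * (10 * (2 * P.lam.toNat + 2)) := by
    refine Finset.card_biUnion_le.trans ?_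
    refine (Finset.sum_le_card_nsmul _ _ (10 * (2 * P.lam.toNat + 2)) ?_).trans ?_
    · intro k _
      refine Finset.card_biUnion_le.trans ?_
      refine (Finset.sum_le_card_nsmul _ _ (2 * P.lam.toNat + 2) ?_).trans ?_
      · intro p _
        exact box1_card P _ _ _
      · rw [smul_eq_mul]
        exact Nat.mul_le_mul_right _ (h1.trans (by norm_num))
    · rw [smul_eq_mul, Int.card_Icc]
      apply Nat.mul_le_mul_right
      omega
  refine (Finset.card_union_le _ _).trans ?_
  refine (Nat.add_le_add_right ((Finset.card_union_le _ _).trans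
    (Nat.add_le_add_right ((Finset.card_union_le _ _).trans
    (Nat.add_le_add_right (Finset.card_union_le _ _) _)) _)) _).trans ?_
  rw [Finset.card_singleton]
  unfold K1
  set x := (n - m).toNat
  set z := 2 * P.lam.toNat + 2
  have h5 : 2 * (4 * P.lam.toNat) + 2 = 8 * P.lam.toNat + 2 := by ring
  rw [h5] at h3
  set w := 8 * P.lam.toNat + 2
  have h6 : x * (10 * z) ≤ 10 * z * x := by rw [mul_comm]
  have h7 : (w + 10 * z + 200) * (x + 1) = w * x + 10 * z * x + 200 * x + w + 10 * z + 200 := by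
    ring
  rw [h7]
  have h8 : 0 ≤ w * x := Nat.zero_le _
  omega

lemma cover1 (j m n : ℤ) (a : ℤ) (hmn : m ≤ n) (ys y0 y : ℝ) (hys : P.cell j ys = a)
    (hy0 : |y - y0| ≤ P.u m) (hy : ell1 P n y = (j, a)) :
    ∃ c ∈ centers1 P j m n ys y0, |y - c| < 3 * P.u n := by
  have hQ : P.cell j y = P.cell j ys := by
    have := ell1_snd P n y
    rw [hy] at this
    simp only at this
    rw [← this, hys]
  have hyys : |y - ys| < 3 * P.u j := P.cell_close hQ
  have un := P.u_pos n
  have un1 := P.u_pos (n + 1)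
  have uj := P.u_pos j
  have um := P.u_pos m
  have h01 := P.u_lt_ninth (show n < n + 1 by omega)
  have hmn' := P.u_anti hmn
  have a0 := abs_lt.mp hyys
  have a1 := abs_le.mp hy0
  unfold centers1
  rcases ell1_cases P n y with h | ⟨q, hq, hqy, h⟩
  · rcases b1_cases P n y with h2 | ⟨p, hp, hpy, h2⟩
    · -- plain label
      rw [h, h2] at hy
      have hj : n = j := congrArg Prod.fst hy
      subst hj
      exact ⟨ys, by simp, hyys⟩
    · -- ring label
      rw [h, h2] at hy
      have hj : kap1 P p = j := congrArg Prod.fst hy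
      have hjn : j ≤ n - 1 := by rw [← hj]; exact kap1_le P hp
      have hpj : P.L1 j p := by rw [← hj]; exact kap1_mem P hp
      have hjn' := P.u_anti (show j ≤ n by omega)
      refine ⟨p, ?_, ?_⟩
      · have : p ∈ box1 P j ys 4 := by
          apply mem_box1 P hpj
          rw [abs_le]
          push_cast
          constructor <;> linarith [hpy.1, hpy.2, a0.1, a0.2]
        simp [this]
      · rw [abs_lt]
        constructor <;> linarith [hpy.1, hpy.2]
  · have a2 := abs_lt.mp hqy
    refine ⟨q, ?_, by linarith⟩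
    rw [h] at hy
    by_cases hkm : kap1 P q ≤ m
    · have hqm : P.L1 m q := P.L1_mono hkm (kap1_mem P hq)
      have : q ∈ box1 P m y0 2 := by
        apply mem_box1 P hqm
        rw [abs_le]
        push_cast
        constructor <;> linarith [a1.1, a1.2, a2.1, a2.2]
      simp [this]
    · push Not at hkm
      have hkn : kap1 P q ≤ n := kap1_le P hq
      rcases b1_cases P (kap1 P q - 1) y with h2 | ⟨p, hp, hpy, h2⟩
      · rw [h2] at hy
        have hj : kap1 P q - 1 = j := congrArg Prod.fst hy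
        have hq' : P.L1 (j + 1) q := by
          have := kap1_mem P hq
          rwa [show kap1 P q = j + 1 by omega] at this
        have : q ∈ box1 P (j + 1) ys (4 * P.lam.toNat) := by
          apply mem_box1 P hq'
          have e1 : ((4 * P.lam.toNat : ℕ) : ℝ) * P.u (j + 1) = 4 * P.u j := by
            push_cast
            rw [P.lam_toNat, P.u_succ j]
            ring
          rw [e1, abs_le]
          have := P.u_anti (show j ≤ n by omega)
          constructor <;> linarith [a0.1, a0.2, a2.1, a2.2]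
        simp [this]
      · rw [h2] at hy
        have hj : kap1 P p = j := congrArg Prod.fst hy
        have hpj : P.L1 j p := by rw [← hj]; exact kap1_mem P hp
        have hjk : j ≤ kap1 P q - 1 - 1 := by rw [← hj]; exact kap1_le P hp
        have uk1 := P.u_pos (kap1 P q - 1)
        have hp4 : p ∈ box1 P j ys 4 := by
          apply mem_box1 P hpj
          have := P.u_anti (show j ≤ kap1 P q - 1 by omega)
          rw [abs_le]
          push_cast
          constructor <;> linarith [hpy.1, hpy.2, a0.1, a0.2]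
        have hqk : q ∈ box1 P (kap1 P q) p P.lam.toNat := by
          apply mem_box1 P (kap1_mem P hq)
          rw [P.lam_toNat]
          have e1 := P.u_succ (kap1 P q - 1)
          rw [sub_add_cancel] at e1
          have e2 := P.u_anti (show kap1 P q - 1 ≤ n by omega)
          rw [← e1, abs_le]
          constructor <;> linarith [hpy.1, hpy.2, a2.1, a2.2]
        have : q ∈ (Finset.Icc (m + 1) n).biUnion (fun k => (box1 P j ys 4).biUnion
            (fun p => box1 P k p P.lam.toNat)) := by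
          rw [Finset.mem_biUnion]
          refine ⟨kap1 P q, by rw [Finset.mem_Icc]; omega, ?_⟩
          rw [Finset.mem_biUnion]
          exact ⟨p, hp4, hqk⟩
        simp [this]

/-- GROW1 -/
theorem t_GROW1 : S_GROW1 := by
  intro P
  refine ⟨K1 P, ?_⟩
  rintro ⟨j, a⟩ m n hmn y0
  by_cases h : ∃ ys, P.cell j ys = a
  · obtain ⟨ys, hys⟩ := h
    refine ⟨centers1 P j m n ys y0, centers1_card P j m n ys y0, ?_⟩
    intro y h1 h3
    exact cover1 P j m n a hmn ys y0 y hys h1 h3
  · refine ⟨∅, by simp, ?_⟩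
    intro y _ h3
    exfalso
    apply h
    refine ⟨y, ?_⟩
    have := ell1_snd P n y
    rw [h3] at this
    exact this.symm

end Pool.Agent.Y151.AD
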